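import Pool.Agent.Helper55.RT.Spec5
import Pool.Agent.Helper55.RG.Hfin2

/-!
# Part LIF: lifting to the decomposition group at a rational place
-/

set_option autoImplicit false
set_option linter.all false

open Polynomial IsDedekindDomain
open scoped Classical

namespace Pool.Agent.Helper57.Thin.LIF

open Pool.Agent.TH115.GD Pool.Agent.Helper55.TT Pool.Agent.Helper55.RT
open Pool.Agent.Helper55.RG hiding em_inj VanishL VanishExt
open Pool.Agent.Helper55.RL

theorem of_bij {k : Type} [Field k] (a : k) :
    Function.Bijective (AdjoinRoot.of (X - C a : k[X])) := by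
  constructor
  · exact AdjoinRoot.of.injective_of_degree_ne_zero (by rw [degree_X_sub_C]; exact one_ne_zero)
  · intro x
    obtain ⟨q, rfl⟩ := AdjoinRoot.mk_surjective x
    refine ⟨q.eval a, ?_⟩
    rw [← AdjoinRoot.mk_C, AdjoinRoot.mk_eq_mk]
    exact dvd_sub_comm.1 X_sub_C_dvd_sub_C_eval

theorem irr {k : Type} [Field k] (a : k) (μ : k[X]) (hμ : Irreducible μ) :
    Irreducible ((μ.map (C : k →+* k[X])).map (AdjoinRoot.mk (X - C a : k[X]))) := by
  have h1 : (μ.map (C : k →+* k[X])).map (AdjoinRoot.mk (X - C a : k[X])) =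
      μ.map (AdjoinRoot.of (X - C a : k[X])) := by
    rw [Polynomial.map_map]
    rfl
  rw [h1]
  let e : k ≃+* AdjoinRoot (X - C a : k[X]) := RingEquiv.ofBijective _ (of_bij a)
  exact (MulEquiv.irreducible_iff (Polynomial.mapEquiv e)).2 hμ

theorem main (hSUR : S_SUR) : Q_LIF := by
  intro k k' K F _ _ _ _ _ _ _ _ _ _ hT a M _ ι τ
  obtain ⟨e₀, he₀⟩ := Field.exists_primitive_element k M
  have hint : IsIntegral k e₀ := Algebra.IsIntegral.isIntegral e₀
  set α : Sep F := em k' F (Sep F) (C (e₀ : k')) with hα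
  have hc : ∀ c : k, em k' F (Sep F) (C (algebraMap k k' c)) = em k K (Sep F) (C c) := by
    intro c
    rw [em_map hT, map_C]
  have hroot : eval₂ (em k K (Sep F)) α ((minpoly k e₀).map (C : k →+* k[X])) = 0 := by
    rw [eval₂_map]
    have h1 : (em k K (Sep F)).comp (C : k →+* k[X]) =
        ((em k' F (Sep F)).comp (C : k' →+* k'[X])).comp (algebraMap k k') :=
      RingHom.ext fun c => (hc c).symm
    have h2 : aeval (e₀ : k') (minpoly k e₀) = 0 := by
      have h3 := congrArg (algebraMap M k') (minpoly.aeval k e₀)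
      rw [map_zero, ← aeval_algebraMap_apply] at h3
      exact h3
    rw [h1, hα]
    have h4 := hom_eval₂ (minpoly k e₀) (algebraMap k k')
      ((em k' F (Sep F)).comp (C : k' →+* k'[X])) (e₀ : k')
    rw [← aeval_def, h2, map_zero] at h4
    exact h4.symm
  obtain ⟨δ, hδ, hδα⟩ := hSUR k k' K F hT (X - C a) (algebraMap k k' a) (irreducible_X_sub_C a)
    (by simp) ι ((minpoly k e₀).map C) ((minpoly.monic hint).map _)
    (irr a _ (minpoly.irreducible hint)) α hroot τ
  refine ⟨δ, hδ, ?_⟩
  have key : ∀ x : M, δ (em k' F (Sep F) (C (x : k'))) = τ (em k' F (Sep F) (C (x : k'))) := by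
    intro x
    have hx : x ∈ IntermediateField.adjoin k {e₀} := by rw [he₀]; trivial
    induction hx using IntermediateField.adjoin_induction with
    | mem y hy =>
      rw [Set.mem_singleton_iff.1 hy]
      exact hδα
    | algebraMap c =>
      have h1 : ((algebraMap k M c : M) : k') = algebraMap k k' c := rfl
      rw [h1, hc]
      show δ (algebraMap K (Sep F) _) = τ (algebraMap K (Sep F) _)
      rw [δ.commutes, τ.commutes]
    | add y z _ _ hy hz =>
      have h1 : ((y + z : M) : k') = (y : k') + (z : k') := rfl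
      rw [h1, C_add, map_add, map_add, map_add, hy, hz]
    | inv y _ hy =>
      have h1 : em k' F (Sep F) (C ((y⁻¹ : M) : k')) = (em k' F (Sep F) (C (y : k')))⁻¹ :=
        map_inv₀ ((em k' F (Sep F)).comp (C : k' →+* k'[X])) (y : k')
      rw [h1, map_inv₀, map_inv₀, hy]
    | mul y z _ _ hy hz =>
      have h1 : ((y * z : M) : k') = (y : k') * (z : k') := rfl
      rw [h1, C_mul, map_mul, map_mul, map_mul, hy, hz]
  intro e he
  exact key ⟨e, he⟩

end Pool.Agent.Helper57.Thin.LIF
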